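import Pool.Agent.Helper93.TS.Stmts

/-!
# Two-scale sums-differences: module cw
-/

set_option autoImplicit false

namespace Pool.Agent.Helper93.TS

open Pool.Agent.Helper8.Kak

theorem st_cw (h1 : ST_PRE) : ST_cw := by
  intro m N D
  obtain ⟨hp, lk, κ0, ldS0, -, -, -, -, -, -, -, -⟩ := h1 m N D
  have hN : (1 : ℝ) ≤ (N : ℝ) := by exact_mod_cast D.hN
  have hN0 : (0 : ℝ) < (N : ℝ) := by linarith
  have hδ : 0 < cd N := by
    unfold cd
    positivity
  have hδ1 : cd N ≤ 1 := by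
    unfold cd
    rw [div_le_one hN0]
    exact hN
  have hM : 1 ≤ cd N * ((N * N : ℕ) : ℝ) := by
    unfold cd
    push_cast
    rw [← mul_assoc, one_div, inv_mul_cancel₀ hN0.ne', one_mul]
    exact hN
  refine cost_le D.V _ _ VV.w (by decide +kernel) _ fun r hr => ?_
  simp only [Finset.mem_insert, Finset.mem_singleton, forall_eq_or_imp, forall_eq, Dat.V_PSc,
    Dat.V_PRc, Dat.V_T0, Dat.V_T1, Dat.V_S, Dat.V_R, Dat.V_b] at hr
  have h2 := CE_move' hp hδ hδ1 hM D.hv r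
    (fun y => D.l (z0 y)) (fun y => D.l (z1 y)) (fun y => D.l (z1 y))
    (fun y => ((D.T (zR y) : ℕ) : ℤ) - ((D.T (z0 y) : ℕ) : ℤ)) (fun y => D.T (zS y))
    (fun y => D.T (z0 y)) (fun y => D.T (zT y)) (fun y hy => (lk y hy).pc.symm)
    (fun y y' _ _ g => by
      obtain ⟨g1, g2, g3, g4, -, g6, g7⟩ := hr y y' g
      refine ⟨g3, g1, g2, by rw [g4, g1], g6, ?_⟩
      have e : ∀ y : Z D.Ω, frm D.x D.v (D.l (z1 y)) (D.T (z0 y))
          (((D.T (zR y) : ℕ) : ℤ) - ((D.T (z0 y) : ℕ) : ℤ)) (D.v (D.l (z1 y)))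
          = pnt D.x D.v (D.l (z1 y)) (D.T (zR y)) := by
        intro y
        funext i
        unfold frm pnt ht
        push_cast
        ring
      rw [e, e]
      exact g7)
  refine h2.trans (mul_le_kk κ0 ?_)
  linarith [ldS0, log11_le]

end Pool.Agent.Helper93.TS
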